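import Pool.Agent.Run7.h104.Tri21

/-!
# MP_291eb9_an: harmonic measures of three disjoint fine domains

The definitions used in the statement (file `Pool/Agent/Helper486/TP/BDefs.lean`): `E n` is `ℝⁿ`,
`fineTopology n` is the coarsest topology in which every subharmonic function on `ℝⁿ` is continuous,
`FineDomain D` (finely open, finely connected), and `IsHarmonicMeasure D x μ`: `μ` is the balayage
of the Dirac measure at `x` onto the complement of `D`, that is the finite measure whose Newtonian
potential is the regularized reduced function of `|x - ·|^{2-n}` relative to the complement of `D`.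
-/

set_option autoImplicit false

open MeasureTheory Set Filter Topology Metric
open scoped ENNReal

namespace Pool.Agent.Results.MP_291eb9_an.TripleMeet

open Pool.Agent.Helper486.TP Run7.h104.Tri

/-- Three measures without common part are carried by three Borel sets without common point. -/
theorem sets_of_meet {X : Type*} [MeasurableSpace X] (ω : Fin 3 → Measure X)
    [∀ j, IsFiniteMeasure (ω j)] (h : ∀ ν : Measure X, (∀ j, ν ≤ ω j) → ν = 0) :
    ∃ S : Fin 3 → Set X, (∀ j, MeasurableSet (S j) ∧ ω j (S j)ᶜ = 0) ∧ S 0 ∩ S 1 ∩ S 2 = ∅ := by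
  set τ : Measure X := ω 0 + ω 1 + ω 2 with hτ
  have hac : ∀ j, ω j ≪ τ := by
    intro j
    have hle : ω j ≤ τ := by
      fin_cases j
      · exact (Measure.le_add_right le_rfl).trans (Measure.le_add_right le_rfl)
      · exact (Measure.le_add_left le_rfl).trans (Measure.le_add_right le_rfl)
      · exact Measure.le_add_left le_rfl
    exact hle.absolutelyContinuous
  set g : Fin 3 → X → ℝ≥0∞ := fun j => (ω j).rnDeriv τ with hg
  have hgm : ∀ j, Measurable (g j) := fun j => Measure.measurable_rnDeriv _ _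
  have hwd : ∀ j, τ.withDensity (g j) = ω j := fun j => Measure.withDensity_rnDeriv_eq _ _ (hac j)
  set k : X → ℝ≥0∞ := fun x => min (g 0 x) (min (g 1 x) (g 2 x)) with hk
  have hkm : Measurable k := (hgm 0).min ((hgm 1).min (hgm 2))
  have h0 : τ.withDensity k = 0 := by
    refine h _ fun j => ?_
    rw [← hwd j]
    refine withDensity_mono (Eventually.of_forall fun x => ?_)
    fin_cases j
    · exact min_le_left _ _
    · exact (min_le_right _ _).trans (min_le_left _ _)
    · exact (min_le_right _ _).trans (min_le_right _ _)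
  have hk0 : k =ᵐ[τ] 0 := (withDensity_eq_zero_iff hkm.aemeasurable).1 h0
  set Z : Set X := {x | k x ≠ 0} with hZ
  have hZm : MeasurableSet Z := (measurableSet_eq_fun hkm measurable_const).compl
  have hZ0 : τ Z = 0 := ae_iff.1 hk0
  have hP : ∀ j, ω j {x | g j x ≠ 0}ᶜ = 0 := by
    intro j
    have hm : MeasurableSet {x | g j x ≠ 0}ᶜ :=
      ((measurableSet_eq_fun (hgm j) measurable_const).compl).compl
    have := withDensity_apply (μ := τ) (g j) hm
    rw [hwd j] at this
    rw [this]
    refine (setLIntegral_congr_fun hm fun x hx => ?_).trans (lintegral_zero)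
    simpa using hx
  have hPm : ∀ j, MeasurableSet {x | g j x ≠ 0} := fun j =>
    (measurableSet_eq_fun (hgm j) measurable_const).compl
  refine ⟨fun j => {x | g j x ≠ 0} \ Z, fun j => ⟨(hPm j).diff hZm, ?_⟩, ?_⟩
  · rw [← nonpos_iff_eq_zero]
    calc ω j ({x | g j x ≠ 0} \ Z)ᶜ ≤ ω j ({x | g j x ≠ 0}ᶜ ∪ Z) := by
          refine measure_mono fun x hx => ?_
          by_cases h1 : x ∈ Z
          · exact Or.inr h1
          · exact Or.inl fun h2 => hx ⟨h2, h1⟩
      _ ≤ ω j {x | g j x ≠ 0}ᶜ + ω j Z := measure_union_le _ _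
      _ = 0 := by rw [hP j, hac j hZ0, add_zero]
  · ext x
    simp only [mem_inter_iff, Set.mem_sdiff, mem_ofPred_eq, mem_empty_iff_false, iff_false, hZ, hk]
    rintro ⟨⟨⟨h1, h2⟩, h3, _⟩, h4, _⟩
    refine h2 ?_
    rw [← pos_iff_ne_zero] at h1 h3 h4 ⊢
    exact lt_min h1 (lt_min h3 h4)

/-- **The triple meet of harmonic measures of disjoint fine domains is zero**, in every dimension
`n ≥ 3` (the first part; the lattice infimum in the complete lattice of measures, and the
formulation with Borel sets). The second part: fine openness and connectedness are not needed, the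
same holds for the swept measures of the Dirac measures at `x_j ∈ D_j` onto the complements of any
three pairwise disjoint sets `D_j`. -/
theorem result (n : ℕ) (hn : 3 ≤ n) :
    (∀ (D : Fin 3 → Set (E n)) (x : Fin 3 → E n) (ω : Fin 3 → Measure (E n)),
      (∀ j, FineDomain (D j)) → (∀ i j, i ≠ j → Disjoint (D i) (D j)) → (∀ j, x j ∈ D j) →
      (∀ j, IsHarmonicMeasure (D j) (x j) (ω j)) →
      ω 0 ⊓ ω 1 ⊓ ω 2 = 0 ∧
      ∃ S : Fin 3 → Set (E n), (∀ j, MeasurableSet (S j) ∧ ω j (S j)ᶜ = 0) ∧
        S 0 ∩ S 1 ∩ S 2 = ∅) ∧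
    (∀ (D : Fin 3 → Set (E n)) (x : Fin 3 → E n) (ω : Fin 3 → Measure (E n)),
      (∀ i j, i ≠ j → Disjoint (D i) (D j)) → (∀ j, x j ∈ D j) →
      (∀ j, IsSwept (D j)ᶜ (x j) (ω j)) →
      ω 0 ⊓ ω 1 ⊓ ω 2 = 0) := by
  have key : ∀ (D : Fin 3 → Set (E n)) (x : Fin 3 → E n) (ω : Fin 3 → Measure (E n)),
      (∀ i j, i ≠ j → Disjoint (D i) (D j)) → (∀ j, x j ∈ D j) →
      (∀ j, IsSwept (D j)ᶜ (x j) (ω j)) → ω 0 ⊓ ω 1 ⊓ ω 2 = 0 := by
    intro D x ω hdisj hx hω
    refine triple hn hdisj hx hω fun j => ?_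
    fin_cases j
    · exact inf_le_left.trans inf_le_left
    · exact inf_le_left.trans inf_le_right
    · exact inf_le_right
  refine ⟨fun D x ω _ hdisj hx hω => ⟨key D x ω hdisj hx hω, ?_⟩, key⟩
  have : ∀ j, IsFiniteMeasure (ω j) := fun j => (hω j).finite
  exact sets_of_meet ω fun ν hν => triple hn hdisj hx hω hν

end Pool.Agent.Results.MP_291eb9_an.TripleMeet
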